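import Pool.Agent.Q36.HL.Nu
import Pool.Agent.Q36.PT.Lf

/-!
# Nonvanishing with index one for pairs dominated by products of open curves

Let `C i` (`i < n`) be projective curves and `S i` finite sets of points, such that every nonconstant
function on `C i` vanishing on `S i` has degree at least `γ i ≥ 2`. Let `(X, Δ)` be a log smooth pair
(reduced boundary) with a dominant rational map of finite degree to `X` from a variety `Z` of
dimension `n` with a generically finite rational map to `C 1 × ... × C n`, such that the prime
divisors of `Z` over the points of the `S i` are mapped to `Δ`. The theorem: `h⁰(X, K_X + Δ) ≠ 0`,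
so that nonvanishing holds with index one, if for a general fibre of `Z ⇢ X`

* the number `r_i` of different `i`-th coordinates is smaller than `γ i` for all `i` in some set `B`
  (which may be empty), and
* for all sets `Q` of indices disjoint from `B` the number `r(Q)` of the points which have the same
  coordinates outside `Q` as a given one satisfies `r(Q) - 1 ≤ ∑ j ∈ Q, (γ j - 2)`.

For instance: the `r` points of the fibre have different `j`-th coordinates for all `j` in a set `T`,
and `r - 1 ≤ ∑ j ∈ T, (γ j - 2)`; so the degree of `Z ⇢ X` may grow with the dimension.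

Proof: if all the traces to `X` of the exterior products of logarithmic differentials on the curves
are zero, there is a linear relation between the products of the values of the differentials at the
points of a general fibre. Generic points whose number is smaller than `γ i` impose independent
conditions on the differentials with simple poles on `S i`. The condition above is Hall's condition of
the marriage theorem for the following task: assign to each point of the fibre except one, a
coordinate in which its value is killed, such that the coordinate `i` is used at most `γ i - 2` times.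
-/

set_option autoImplicit false
set_option linter.overlappingInstances false

open FF IntermediateField Pool.Agent.W603.LV Pool.Agent.W619.PQ Pool.Agent.W619.TW
  Pool.Agent.W619.PL

namespace Pool.Agent.Results.MP_bc213e_ag.DominatedByOpenCurves

/-- Every nonconstant function on the curve with function field `F` which vanishes on the finite set
`S` of points has degree at least `γ`. -/
def LogGonalityGe (F : Type) [Field F] [Algebra ℂ F] (S : Finset (Place ℂ F)) (γ : ℕ) : Prop :=
  ∀ b : F, Transcendental ℂ b → (∀ P ∈ S, 0 < P.ord b) → γ ≤ Module.finrank ℂ⟮b⟯ F

/-- The prime divisors of `Z` over a point of some `S i` are mapped to the boundary `Bd`. -/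
def BoundaryIn {L M : Type} [Field L] [Field M] [Algebra ℂ L] [Algebra ℂ M] [Algebra L M] {n : ℕ}
    (F : Fin n → IntermediateField ℂ M) (S : ∀ i, Finset (Place ℂ (F i)))
    (Bd : Place ℂ L → Prop) : Prop :=
  ∀ (w : Place ℂ M) (v : Place ℂ L) (e : ℕ), IsDivisorial w n → Over w v e →
    (∃ (i : Fin n) (q : Place ℂ (F i)) (a : ℕ), Over w q a ∧ q ∈ S i) → Bd v

/-- `h⁰(X, K_X + Δ) ≠ 0`: there is a nonzero canonical form on the function field of `X` which is
regular along the divisorial places outside the boundary and logarithmic along the divisorial places
in the boundary. -/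
def LogGenusPos (K : Type) [Field K] [Algebra ℂ K] (n : ℕ) (Bd : Place ℂ K → Prop) : Prop :=
  ∃ ω : (Fin n → Derivation ℂ K K) → K, IsPluriForm ℂ K n 1 ω ∧
    (∀ v : Place ℂ K, IsDivisorial v n → ¬ Bd v → RegularAt v n ω) ∧
    (∀ v : Place ℂ K, IsDivisorial v n → Bd v → LogRegularAt v n ω) ∧ ∃ D, ω D ≠ 0

section

variable (L : Type) {M : Type} [Field L] [Field M] [Algebra ℂ L] [Algebra ℂ M] [Algebra L M]

/-- The number of different `C`-coordinates on a general fibre of `Z ⇢ X`, where `F` is the function
field of `C`: the degree over `X` of the image of `Z` in `X × C`. -/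
noncomputable def coordinates (F : IntermediateField ℂ M) : ℕ :=
  Module.finrank L (IntermediateField.adjoin L (F : Set M))

/-- The number of the points of a general fibre of `Z ⇢ X` with the same coordinates outside `Q` as a
given one: the degree of `Z` over its image in `X × ∏ j ∉ Q, C j`. -/
noncomputable def agreeing {n : ℕ} (F : Fin n → IntermediateField ℂ M) (Q : Finset (Fin n)) : ℕ :=
  Module.finrank (IntermediateField.adjoin L {z : M | ∃ j, j ∉ Q ∧ z ∈ F j}) M

end

/-- **Nonvanishing for pairs dominated by products of open curves.** Let `F i` (`i < n`) be the
function fields of curves `C i` and `S i` finite sets of points of `C i` such that nonconstant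
functions vanishing on `S i` have degree at least `γ i ≥ 2`. Let `M` be the function field of a
variety `Z` of dimension `n` with a generically finite rational map to the product of the curves,
`L ⊆ M` the function field of `X`, with `M` finite over `L`, and `Bd` a set of prime divisors over `X`
containing the images of the prime divisors of `Z` over the points of the `S i`. If for some set `B`
of indices `r_i < γ i` for `i ∈ B`, and `r(Q) - 1 ≤ ∑ j ∈ Q, (γ j - 2)` for all `Q` disjoint from `B`,
then `h⁰(X, K_X + Δ) ≠ 0`. -/
theorem result {L M : Type} [Field L] [Field M] [Algebra ℂ L] [Algebra ℂ M] [Algebra L M]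
    [IsScalarTower ℂ L M] [FiniteDimensional L M] [Algebra.EssFiniteType ℂ L] (n : ℕ)
    (hM : Algebra.trdeg ℂ M = n) (F : Fin n → IntermediateField ℂ M) (hF : ∀ i, IsFF ℂ (F i))
    (halg : Algebra.IsAlgebraic ↥(⨆ i, F i) M) (S : ∀ i, Finset (Place ℂ (F i)))
    (γ : Fin n → ℕ) (hγ2 : ∀ i, 2 ≤ γ i) (hγ : ∀ i, LogGonalityGe (F i) (S i) (γ i))
    (B : Finset (Fin n)) (hB : ∀ i ∈ B, coordinates L (F i) < γ i)
    (hQ : ∀ Q : Finset (Fin n), Disjoint Q B →
      agreeing L F Q ≤ 1 + ∑ j ∈ Q, (γ j - 2))
    (Bd : Place ℂ L → Prop) (hBd : BoundaryIn F S Bd) : LogGenusPos L n Bd :=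
  Q36.PT.logPos_of_image (Q36.HL.genus_hallL F hM halg hγ2 S hγ B hB hQ Bd hBd)

end Pool.Agent.Results.MP_bc213e_ag.DominatedByOpenCurves
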