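import Pool.Agent.Q41.RC.Final

/-!
# Effective nonvanishing for log smooth pairs over products of projective spaces

Let `Y` be an abelian cover of the product of the projective spaces of the dimensions `n l`, branched
along any number of hypersurfaces `F c = 0` with normal crossings, of any multidegrees `d c`: the
function field `K` is generated by the affine coordinates `x` and by roots `z j`,
`z j ^ m j = ∏ c, F c (x) ^ a j c` (by Kummer theory all abelian covers are of this form). Let
`(V, D)` be a log smooth pair, `V` a resolution of `Y` such that the preimage of the hypersurfaces
`F c = 0`, `c ∈ S`, is a divisor `D` with normal crossings (with coefficients one); `S` is arbitrary,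
some of the hypersurfaces in `S` may be unramified, and `S` may be empty. The definitions are in
`Pool.Agent.Q41.RC.Defs`; sections of the multiples of `K_V + D` are given by pluricanonical forms on
the function field `K`, with a condition at the divisorial places, and `Boundary d F S x` is the set
of the divisorial places over the hypersurfaces in `S`.

**Theorem.** If `K_V + D` is pseudo-effective (for example nef) then `|M (K_V + D)|` is not empty for
an explicit `M`, which depends only on the number `N` and the degrees of the hypersurfaces and on the
exponent of the Galois group: every `M` which is divisible by all positive integers up to `N! * B ^ N`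
will do, if `B` is at least the degrees and the exponent. This holds if and only if a system of
linear inequalities (for the exponents of the hypersurfaces in a logarithmic form) has a solution.

Proof: if the linear inequalities have no solution then, by linear programming duality and a
dimension count, there are rational curves through the general point of `V` which meet `D` in at most
one point, so that `K_V + D` is not pseudo-effective. If they have a solution, they have one, at a
vertex, with a denominator `T ≤ N! * B ^ N`, and `∏ c, F c ^ (T * (e c - 1))` times the `T`-th power of
the canonical form is a section of `T (K_V + D)`.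
-/

set_option autoImplicit false

open FF MvPolynomial Pool.Agent.W619.PL Pool.Agent.W619.PQ Pool.Agent.W619.TW Pool.Agent.Q41.RC.Def

namespace Pool.Agent.Results.MP_bc213e_ag.EffectiveNonvanishingCovers

/-- `M (K_V + D)` is effective: there is a nonzero `M`-fold pluricanonical form which is regular
along the divisorial places outside the boundary `Bd` and logarithmic along the divisorial places in
`Bd`. -/
def IsEffective (k K : Type) [Field k] [Field K] [Algebra k K] (n : ℕ) (Bd : Place k K → Prop)
    (M : ℕ) : Prop :=
  ∃ ω : (Fin n → Derivation k K K) → K, IsPluriForm k K n M ω ∧
    (∀ v : Place k K, IsDivisorial v n → ¬ Bd v → RegularAt v n ω) ∧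
    (∀ v : Place k K, IsDivisorial v n → Bd v → LogRegularAt v n ω) ∧ ∃ D, ω D ≠ 0

/-- **Effective nonvanishing.** Let `K` be the function field of an abelian cover of the product of
the projective spaces of the dimensions `n l`, branched at most along the hypersurfaces `F c = 0` of
the multidegrees `d c`, which have normal crossings, and let `(V, D)` be a log smooth model of `K` such
that `D` is the preimage of the hypersurfaces `F c = 0` with `c ∈ S`. Let `m j ∣ E * a j c` for all
`j`, `c` (so that the `E`-th powers in the Galois group are trivial), let `B` be at least `E` and the
degrees `d c l`, and let `M > 0` be divisible by all positive integers up to `N! * B ^ N`. Then the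
following are equivalent: `K_V + D` is pseudo-effective; `M (K_V + D)` is effective; some positive
multiple of `K_V + D` is effective; there are admissible exponents. -/
theorem result {r N R : ℕ} {n : Fin r → ℕ} {d : Fin N → Fin r → ℕ}
    {F : Fin N → MvPolynomial (Coord n) ℂ} {m : Fin R → ℕ} {a : Fin R → Fin N → ℕ} {K : Type}
    [Field K] [Algebra ℂ K] {x : Coord n → K} {z : Fin R → K} (h : IsCover d F m a x z)
    (hF : NormalCrossings F) (S : Set (Fin N)) (B E M : ℕ) (hE0 : 0 < E) (hEB : E ≤ B)
    (hE : ∀ j c, m j ∣ E * a j c) (hB : ∀ c l, d c l ≤ B) (hM0 : 0 < M)
    (hM : ∀ t, 0 < t → t ≤ N.factorial * B ^ N → t ∣ M) :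
    List.TFAE [IsPsef ℂ K (∑ l, n l) (Boundary d F S x),
      IsEffective ℂ K (∑ l, n l) (Boundary d F S x) M,
      ∃ M', 0 < M' ∧ IsEffective ℂ K (∑ l, n l) (Boundary d F S x) M',
      ∃ e, IsExponent d F m a S e] := by
  have h1 := Pool.Agent.Q41.RC.final_tfae h hF S
  have h0 : (¬ ∃ e, IsExponent d F m a S e) → ¬ IsPsef ℂ K (∑ l, n l) (Boundary d F S x) :=
    (h1.out 3 2).1
  tfae_have 1 → 4 := fun h2 => by
    by_contra h3
    exact h0 h3 h2
  tfae_have 4 → 2 := fun h2 => Pool.Agent.Q41.RC.final_pluri h hF h2 hE0 hEB hE hB hM
  tfae_have 2 → 3 := fun h2 => ⟨M, hM0, h2⟩
  tfae_have 3 → 1 := fun ⟨M', hM', h2⟩ =>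
    Pool.Agent.Q41.RC.psef_of_not_neg (Pool.Agent.Q41.RC.not_neg_of_pluri hM' h2)
  tfae_finish

end Pool.Agent.Results.MP_bc213e_ag.EffectiveNonvanishingCovers
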