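import Pool.Agent.Q57.TQ.Mak

/-!
# Nonvanishing for toroidal pairs on abelian covers of products of projective spaces

Let `F i` be a form of degree `d i` in `n i + 1` variables whose zero set in the projective
`n i`-space is a smooth hypersurface, and let `H i` be the cyclic hypersurface `w ^ (d i) = F i` in
the projective `(n i + 1)`-space. Let `K` be the function field of a quotient
`Y = (H 1 × ... × H r) / G`, where `G` is any group of diagonal automorphisms
`w i ↦ ζ i * w i`, `ζ i ^ (d i) = 1`. Equivalently, `K` is generated by the affine coordinates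
`x i j / x i 0` of the product of the projective `n i`-spaces and by roots `z j`,
`z j ^ (m j) = ∏ i, (F i (x i) / x i 0 ^ (d i)) ^ (a j i)`, where `m j` divides `a j i * d i`: the
abelian covers of the product of the projective spaces which are branched along the hypersurfaces
`F i = 0` of the factors.

A prime divisor `P` over `Y` (a divisorial place of `K`) has the vector `multiplicities F d x P` of the
multiplicities `v i` of the hypersurfaces along `P`. The vectors `v ≠ 0` of nonnegative integers with
`m j ∣ ∑ i, a j i * v i` for all `j` are the `Admissible` ones.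

**The pairs.** The boundary is given by a function `c`, with `c ≤ 1`, on the vectors: `- c v` is the
discrepancy of the pair along the divisors with the vector `v`, and sections of the `m`-th multiple
of the log canonical divisor are the rational `m`-canonical forms whose order along every prime
divisor `P` is at least `- m c (v)`, `v` the vector of `P`. So `c v` is the coefficient of the boundary
if `P` is a divisor on the variety. The following are examples.

(1) `c v = 1` if `v i > 0` for some `i ∈ U`, and `c v = 0` otherwise: the log canonical divisor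
`K_V + D` of a log smooth compactification `(V, D)` of a resolution of the part of `Y` over the
complement of the hypersurfaces `F i = 0`, `i ∈ U` (`D` is reduced).

(2) `X` is a toroidal modification of `Y` (for example `X = Y`, or a toroidal minimal model of it): it
is given by a subdivision of the fan of the faces of the positive orthant, and the divisors `D_ρ` of
`X` over the hypersurfaces belong to the rays, generated by admissible vectors `ρ`. Let
`Δ = ∑ δ_ρ D_ρ` with arbitrary rational coefficients `δ_ρ ≤ 1` (`(X, Δ)` is a log canonical pair if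
also `δ_ρ ≥ 0`, and klt if also `δ_ρ < 1`). Then, for `v ≠ 0`, `1 - c v` is the function which is
linear on the cones of the fan and equal to `1 - δ_ρ` at `ρ`; it is the log discrepancy of `(X, Δ)`
along the toroidal divisors, and the sections are those of `m (K_X + Δ)`. The inequalities of the
rays imply all the inequalities `1 - c v ≤ weight v`.

(3) Any function `c ≤ 1` with finitely many values, with `c 0 = 0`, `c ≥ 0` and `c (k v) = c v` for
`k ≥ 1` (see `fgH_of_finite` in `Pool.Agent.Q57.TQ.Kod`).

**The theorem.** Let `weight v = ∑ i, (1 - (n i + 1) / d i) * v i`. The log canonical divisor is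
pseudo-effective (for example nef) if and only if a positive multiple of it has a nonzero section
(nonvanishing), if and only if `weight v ≥ 1 - c v` for all admissible `v`. In this case its Kodaira
dimension and its numerical dimension are equal, to `∑ i ∈ I, n i`, where `I` is the set of those
`i` such that `v i = 0` for all admissible `v` with equality.

For `c = 0` this is `MP_c2a5fc_ag.HypersurfaceQuotients`. The Kodaira and the numerical dimension are
given by the sections of `m (K + Δ)` and of `m (K + Δ) + A`: functions of `N = dim X` rational vector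
fields with a condition at all divisorial places of `K`.
-/

set_option autoImplicit false

open FF MvPolynomial Pool.Agent.W602.GT

namespace Pool.Agent.Results.MP_bc213e_ag.HypersurfaceQuotientPairs

/-- The form `F` has no singular zeros: its partial derivatives have no common zero but `0`. -/
def Smooth {n : ℕ} (F : MvPolynomial (Fin (n + 1)) ℂ) : Prop :=
  ∀ x : Fin (n + 1) → ℂ, x ≠ 0 → ∃ l, eval x (pderiv l F) ≠ 0

/-- The affine coordinates of the product of the projective spaces. -/
noncomputable def affine {r : ℕ} {n : Fin r → ℕ} {K : Type} [Field K]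
    (x : ∀ i, Fin (n i + 1) → K) (b : (i : Fin r) × Fin (n i)) : K :=
  x b.1 b.2.succ / x b.1 0

section

variable {r R : ℕ}

/-- The multiplicities which satisfy the divisibility conditions. -/
def Admissible (m : Fin R → ℕ) (a : Fin R → Fin r → ℕ) (v : Fin r → ℕ) : Prop :=
  v ≠ 0 ∧ ∀ j, m j ∣ ∑ i, a j i * v i

/-- The weight `∑ i, (1 - (n i + 1) / d i) * v i`. -/
def weight (n d v : Fin r → ℕ) : ℚ := ∑ i, (1 - ((n i : ℚ) + 1) / d i) * v i

/-- The function `c` is the function of the coefficients of a boundary: it is at most one (the pair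
is log canonical), the boundary is supported over the hypersurfaces, the log discrepancy `1 - c` is
at most homogeneous along the rays, and finitely many of the inequalities `1 - c v ≤ weight v` imply
the others (by nonnegative rational combinations, up to adding a nonnegative vector). -/
structure IsBoundary (m : Fin R → ℕ) (a : Fin R → Fin r → ℕ) (c : (Fin r → ℕ) → ℚ) : Prop where
  zero : c 0 = 0
  le_one : ∀ v, c v ≤ 1
  ray : ∀ v (k : ℕ), 1 ≤ k → Admissible m a v → 1 - c (k • v) ≤ k * (1 - c v)
  finite : ∃ T : Finset (Fin r → ℕ), (∀ s ∈ T, Admissible m a s) ∧ ∀ v, Admissible m a v →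
    ∃ w : (Fin r → ℕ) → ℚ, (∀ s, 0 ≤ w s) ∧ (∀ k, ∑ s ∈ T, w s * s k ≤ v k) ∧
      1 - c v ≤ ∑ s ∈ T, w s * (1 - c s)

/-- The multiplicities of the hypersurfaces `F i = 0` along the prime divisor `P`; the `x i j` are the
homogeneous coordinates of the `i`-th factor, which are divided by one of minimal order at `P`. -/
noncomputable def multiplicities {K : Type} [Field K] [Algebra ℂ K] {n : Fin r → ℕ}
    (F : ∀ i, MvPolynomial (Fin (n i + 1)) ℂ) (d : Fin r → ℕ) (x : ∀ i, Fin (n i + 1) → K)
    (P : Place ℂ K) (i : Fin r) : ℕ :=
  (P.ord (aeval (x i) (F i)) -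
    d i * Finset.univ.inf' Finset.univ_nonempty fun j => P.ord (x i j)).toNat

end

section sections

/-- `ω` is a section of `m (K + Δ) + j A`: a rational section of the `m`-th power of the canonical
bundle (`IsPluri`: a function of `N` rational vector fields which is multiplied by `det B ^ m` under
a linear substitution `B`) whose order on the vector fields which are regular at `P` is at least `j`
times the order of one of the functions in `S`, minus `m` times the coefficient `δ P` of `Δ`, for all
prime divisors `P` (all divisorial places `P` of `K`). Here `A` is the divisor which is generated by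
the finite set `S` of functions; `A = 0` if `S = {1}`. -/
def IsSection {K : Type} [Field K] [Algebra ℂ K] (N : ℕ) (δ : Place ℂ K → ℚ) (S : Finset K)
    (m j : ℕ) (ω : (Fin N → Derivation ℂ K K) → K) : Prop :=
  IsPluri m ω ∧ ∀ P : Place ℂ K, Divisorial N P → ∀ D : Fin N → Derivation ℂ K K,
    (∀ c, DerReg P (D c)) → ω D = 0 ∨ ∃ s ∈ S, s ≠ 0 ∧
      (j : ℚ) * P.ord s - m * δ P ≤ P.ord (ω D)

variable (N : ℕ) {K : Type} [Field K] [Algebra ℂ K] (δ : Place ℂ K → ℚ)

/-- `κ (K + Δ) ≥ h`: for some `m > 0` there are sections of `m (K + Δ)` whose ratios contain `h`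
algebraically independent functions (for `h = 0`: there is a nonzero section). -/
def KodairaGe (h : ℕ) : Prop :=
  ∃ m : ℕ, 0 < m ∧ ∃ ω : Fin (h + 1) → (Fin N → Derivation ℂ K K) → K,
    (∀ b, IsSection N δ {1} m 1 (ω b)) ∧
    ∃ D, ω 0 D ≠ 0 ∧ AlgebraicIndependent ℂ (fun b : Fin h => ω b.succ D / ω 0 D)

/-- `ν (K + Δ) ≤ h`: for every divisor `A` there is a constant `C` such that
`h⁰ (m (K + Δ) + A) ≤ C m ^ h` for all `m ≥ 1`. -/
def NumericalLe (h : ℕ) : Prop :=
  ∀ S : Finset K, ∃ C : ℕ, ∀ m M : ℕ, 1 ≤ m →
    (∃ ω : Fin M → (Fin N → Derivation ℂ K K) → K, LinearIndependent ℂ ω ∧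
      ∀ l, IsSection N δ S m 1 (ω l)) → M ≤ C * m ^ h

/-- `K + Δ` is pseudo-effective: there is a divisor `A` such that for all `M` a positive multiple of
`M (K + Δ) + A` is effective. -/
def Pseudoeffective : Prop :=
  ∃ S : Finset K, ∀ M : ℕ, ∃ j : ℕ, 1 ≤ j ∧ ∃ ω : (Fin N → Derivation ℂ K K) → K, ω ≠ 0 ∧
    IsSection N δ S (j * M) j ω

end sections

/-- **Nonvanishing and weak abundance.** Let `K` be the function field of an abelian cover of the
product of the projective `n i`-spaces which is branched along smooth hypersurfaces `F i = 0` of the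
factors, and let `Δ` be the boundary which is given by `c`: its coefficient along a prime divisor `P`
is `c v`, where `v` is the vector of the multiplicities of the hypersurfaces along `P`. Then `K + Δ` is
pseudo-effective if and only if `κ (K + Δ) ≥ 0` and if and only if `weight v ≥ 1 - c v` for all
admissible vectors `v`; in this case `κ (K + Δ) = ν (K + Δ) = ∑ i ∈ I, n i`, where `I` is the set of
the indices `i` such that `v i = 0` for all admissible `v` with `weight v = 1 - c v`. -/
theorem result (r N R : ℕ) (n d : Fin r → ℕ) (hr : 1 ≤ r) (hn : ∀ i, 1 ≤ n i)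
    (hd : ∀ i, 1 ≤ d i) (hN : N = ∑ i, n i)
    (F : ∀ i, MvPolynomial (Fin (n i + 1)) ℂ) (hF : ∀ i, (F i).IsHomogeneous (d i))
    (hs : ∀ i, Smooth (F i)) (m : Fin R → ℕ) (hm : ∀ j, 1 ≤ m j) (a : Fin R → Fin r → ℕ)
    (hdiv : ∀ j i, m j ∣ a j i * d i)
    (K : Type) [Field K] [Algebra ℂ K] (x : ∀ i, Fin (n i + 1) → K) (hx0 : ∀ i, x i 0 ≠ 0)
    (hbas : IsTranscendenceBasis ℂ (affine x)) (z : Fin R → K)
    (hz : ∀ j, z j ^ m j = ∏ i, (aeval (x i) (F i) / x i 0 ^ d i) ^ a j i)
    (hgen : IntermediateField.adjoin ℂ (Set.range (affine x) ∪ Set.range z) = ⊤)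
    (c : (Fin r → ℕ) → ℚ) (hc : IsBoundary m a c)
    (δ : Place ℂ K → ℚ) (hδ : ∀ P, δ P = c (multiplicities F d x P))
    (I : Finset (Fin r))
    (hI : ∀ i, i ∈ I ↔ ∀ v, Admissible m a v → weight n d v = 1 - c v → v i = 0) :
    (Pseudoeffective N δ ↔ ∀ v, Admissible m a v → 1 - c v ≤ weight n d v) ∧
    (KodairaGe N δ 0 ↔ ∀ v, Admissible m a v → 1 - c v ≤ weight n d v) ∧
    ((∀ v, Admissible m a v → 1 - c v ≤ weight n d v) →
      KodairaGe N δ (∑ i ∈ I, n i) ∧ NumericalLe N δ (∑ i ∈ I, n i)) := by
  have hw : ∀ v : Fin r → ℕ, weight n d v = ∑ i, (((d i : ℚ) - n i - 1) / d i) * v i := by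
    intro v
    unfold weight
    refine Finset.sum_congr rfl fun i _ => ?_
    have h1 : (d i : ℚ) ≠ 0 := by
      have := hd i
      exact_mod_cast (by omega : d i ≠ 0)
    congr 1
    field_simp
    ring
  simp only [hw] at hI ⊢
  exact Pool.Agent.Q57.TQ.main_d hr hn hN hd hF hs hx0 hbas hm hdiv hz hgen hc.zero hc.le_one
    hc.ray hc.finite hδ I hI

end Pool.Agent.Results.MP_bc213e_ag.HypersurfaceQuotientPairs
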