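import Pool.Agent.Q47.TB.Psef3

/-!
# Nonvanishing for pairs on toric bundles over quotients of complex tori

Let `X = V / Γ` be the quotient of a complex torus of any dimension by any finite group (with or
without fixed points and reflections, projective or not), and let `Y → X` be a toric bundle: a
locally trivial bundle whose fibre is a smooth complete toric variety, twisted by arbitrary line
bundles `c_i` on `X` (for example the projective bundle of a direct sum of line bundles). Let `Δ` be
any effective `ℚ`-divisor on `Y` such that the pair `(Y_v, Δ_v)` is log canonical for one fibre `Y_v`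
of `Y → X` (no condition over the other points, and `Δ` need not be invariant under the torus).

(1) If the numerical class of `K_Y + Δ` is pseudo-effective (in particular if it is nef, or if
`K_Y + Δ` is numerically equivalent to an effective real divisor), then a positive multiple of
`K_Y + Δ` is linearly equivalent to an effective divisor. The pseudo-effective classes of this kind
are those which contain an effective real combination of the invariant divisors `D_i` and of a nef
class of the base.

(2) If `Γ` contains no reflections (for example if `X` is a complex torus or a quotient with trivial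
canonical bundle), then it suffices that the restriction of `K_Y + Δ` to the fibres of `Y → X` is
`ℚ`-effective.

The toric bundle `Y` is described by Cox coordinates; `IsSmoothFan`, `LinEquiv`, `IsSection`,
`IsLogPluricanonical` and `IsLogCanonical` are defined in `Pool.Agent.Q47.TB.Defs`, `IsTorusQuotient`
and `LineBundle` (given by a factor of automorphy `L.e`) in `Pool.Agent.W594.SYZ.Defs2`,
`IsChernForm` and `IsNefForm` in `Pool.Agent.W594.SYZ.TQDefs`, `OnMirror` and `IsRamification` in
`Pool.Agent.TH735.AQ.MirDefs`.

The proof. Coefficients of sections are sections on `X`, so a pseudo-effective class is the class of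
`∑ β_i D_i` plus a nef class of `X`, with real `β_i ≥ 0`. On the base, the Chern form of a log
pluricanonical bundle is nonnegative on the vectors fixed by the reflections, and on a root of a
reflection nonnegativity is an inequality with integral coefficients. Hence the conditions are
rational and there is an integral solution `b` for a multiple. If `m (1, ..., 1) + b` were not in the
Newton polytope of the equation `F` of `m Δ`, then a separating functional would be a monomial
valuation which contradicts log canonicity. Hence `L ⊗ ∏ c_i ^ (- b_i)` is a log pluricanonical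
bundle of a pair on `X`; it is nef, and abundance for torus quotients with arbitrary effective
boundary applies.
-/

set_option autoImplicit false

universe u w

namespace Pool.Agent.Results.MP_bc213e_ag.ToricBundleNonvanishing

open Pool.Agent.W594.SYZ2 Pool.Agent.TH735.AQ Q47.TB MvPolynomial

variable {V : Type u} [NormedAddCommGroup V] [NormedSpace ℂ V] {Γ : Subgroup (V ≃ᵃ[ℂ] V)}
  {ι : Type w} [Fintype ι] {n : ℕ}

/-- The real class `(δ; H)` on the toric bundle `Y` (`δ` a class of divisors on the fibre, modulo
linear equivalence, `H` a class on the base `X`) is the sum of a combination with coefficients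
`t_k ≥ 0` of classes of effective divisors and of the pullback `N` of a nef class of `X`: the line
bundle `M_k` on `X` has the Chern form `HM_k` and `O_Y(d_k; M_k)` has a nonzero section. -/
def IsEff (r : ι → Fin n → ℤ) (c : ι → LineBundle Γ) (δ : ι → ℝ) (H : V → V → ℂ) : Prop :=
  ∃ (κ : Type) (_ : Fintype κ) (t : κ → ℝ) (d : κ → ι → ℤ) (M : κ → LineBundle Γ)
    (HM : κ → V → V → ℂ) (N : V → V → ℂ) (q : Fin n → ℝ),
    (∀ k, 0 ≤ t k) ∧ (∀ k, IsChernForm (M k) (HM k)) ∧
    (∀ k, ∃ G, IsSection r c (d k) (M k).e G ∧ ∃ v, G v ≠ 0) ∧ IsNefForm N ∧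
    (∀ i, δ i = ∑ k, t k * d k i + ∑ l, q l * r i l) ∧
    ∀ v w, H v w = ∑ k, t k * HM k v w + N v w

/-- The real class `(δ; H)` is pseudo-effective: a limit of sums of classes of effective divisors
and nef classes (all Kähler classes of `Y` are such sums). -/
def IsPseff (r : ι → Fin n → ℤ) (c : ι → LineBundle Γ) (δ : ι → ℝ) (H : V → V → ℂ) : Prop :=
  ∃ (δn : ℕ → ι → ℝ) (Hn : ℕ → V → V → ℂ), (∀ j, IsEff r c (δn j) (Hn j)) ∧
    (∀ i, Filter.Tendsto (fun j => δn j i) Filter.atTop (nhds (δ i))) ∧
    ∀ v w, Filter.Tendsto (fun j => Hn j v w) Filter.atTop (nhds (H v w))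

/-- Let `X = V / Γ` be a torus quotient, let `ρ` define the ramification divisor of `V → X`, let
`Y → X` be the toric bundle given by a smooth complete fan with the rays `r i` and by line bundles
`c i` on `X` with Chern forms `Hc i`, let `F` define the effective divisor `m Δ` on `Y`, and let
`O_Y(m (K_Y + Δ))` be the line bundle on `Y` given by the class of `∑ (d_i - m) D_i` and by `L`.
Assume that the fibre `(Y_v, Δ_v)` is log canonical for some `v = v₀`.

(1) Equivalent are: `K_Y + Δ` is pseudo-effective; its class is the class of a real divisor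
`∑ β_i D_i`, `β_i ≥ 0`, plus a nef class of `X`; for some `N ≥ 1` the line bundle
`O_Y(N m (K_Y + Δ))` has a nonzero section.

(2) If `Γ` contains no reflections, then this holds if and only if the restriction of some multiple
`N m (K_Y + Δ)`, `N ≥ 1`, to the fibres is linearly equivalent to an effective divisor. -/
theorem result [FiniteDimensional ℂ V] (Γ : Subgroup (V ≃ᵃ[ℂ] V)) (hΓ : IsTorusQuotient Γ)
    (ρ : V → ℂ) (hρ : IsRamification Γ ρ)
    (n : ℕ) (r : ι → Fin n → ℤ) (S : Set (Set ι)) (hS : IsSmoothFan r S)
    (c : ι → LineBundle Γ) (Hc : ι → V → V → ℂ) (hc : ∀ i, IsChernForm (c i) (Hc i))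
    (m : ℕ) (hm : 1 ≤ m) (d : ι → ℤ) (F : V → MvPolynomial ι ℂ)
    (L : LineBundle Γ) (H : V → V → ℂ) (hL : IsChernForm L H)
    (hF : Q47.TB.IsLogPluricanonical r c m ρ d F L)
    (v₀ : V) (hlc : IsLogCanonical S m (F v₀)) :
    [IsPseff r c (fun i => d i - m) H,
      ∃ (β : ι → ℝ) (q : Fin n → ℝ), (∀ i, 0 ≤ β i) ∧ (∀ i, β i = d i - m + ∑ k, q k * r i k) ∧
        IsNefForm fun v w => H v w - ∑ i, (β i : ℂ) * Hc i v w,
      ∃ N : ℕ, 1 ≤ N ∧ ∃ G, IsSection r c (fun i => (N : ℤ) * (d i - m))
        (fun γ v => L.e γ v ^ N) G ∧ ∃ v, G v ≠ 0].TFAE ∧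
    ((∀ v, ¬ OnMirror Γ v) →
      ((∃ N : ℕ, 1 ≤ N ∧ ∃ G, IsSection r c (fun i => (N : ℤ) * (d i - m))
          (fun γ v => L.e γ v ^ N) G ∧ ∃ v, G v ≠ 0) ↔
        ∃ (N : ℕ) (b : ι → ℕ), 1 ≤ N ∧
          LinEquiv r (fun i => (b i : ℤ)) fun i => (N : ℤ) * (d i - m))) := by
  have hT : ∀ α ∈ (F v₀).support, ∃ v, coeff α (F v) ≠ 0 :=
    fun _ hα => ⟨v₀, mem_support_iff.1 hα⟩
  have hw := weights_of_lc hm hlc
  refine ⟨?_, fun hmir => ⟨?_, ?_⟩⟩
  · tfae_have 1 → 2 := fun h => exists_real hΓ hS hc h
    tfae_have 2 → 3 := fun ⟨β, q, h0, h1, h2⟩ =>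
      nonvanishing hΓ hρ hS hc hL hF _ hT hw h0 (fun i => by rw [h1 i]; push_cast; ring) h2
    tfae_have 3 → 1 := fun ⟨N, hN, G, hG, hG0⟩ => by
      have h := pseff_of_section hL hN hG hG0
      push_cast at h
      exact h
    tfae_finish
  · rintro ⟨N, hN, G, hG, hG0⟩
    obtain ⟨b, hb⟩ := fibre_of_section hG hG0
    exact ⟨N, b, hN, hb⟩
  · rintro ⟨N, b, hN, hb⟩
    exact nonvanishing_no_mirror hΓ hρ hmir hS hc hL hF _ hT hw hN hb

end Pool.Agent.Results.MP_bc213e_ag.ToricBundleNonvanishing
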